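import Pool.Agent.Y645.UG.Stm2

set_option autoImplicit false

/-! A multiplicatively independent part of given defect (helper74). -/

namespace Pool.Agent.Y74.UG

open Module Pool.Agent.Y645.UL

section

variable {G ι : Type} [CommGroup G] [Fintype ι] (w : ι → G)

/-- the coordinates in `S` are multiplicatively independent -/
def Ind (S : Finset ι) : Prop := ∀ a : ι → ℤ, (∀ j, j ∉ S → a j = 0) → a ∈ Lam w → a = 0

variable {w}

theorem Ind.mono {S T : Finset ι} (h : Ind w T) (hST : S ⊆ T) : Ind w S :=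
  fun a ha haL => h a (fun j hj => ha j fun hS => hj (hST hS)) haL

theorem Ind.lam [DecidableEq ι] {S : Finset ι} (h : Ind w S) : Lam (fun j : S => w j) = ⊥ := by
  rw [Submodule.eq_bot_iff]
  intro b hb
  rw [mem_Lam] at hb
  have h1 : ∏ j, w j ^ (if hj : j ∈ S then b ⟨j, hj⟩ else 0) = 1 := by
    rw [← hb, ← Finset.prod_subset (Finset.subset_univ S)
      (fun j _ hj => by rw [dif_neg hj, zpow_zero]),
      ← Finset.prod_coe_sort S (fun j => w j ^ (if hj : j ∈ S then b ⟨j, hj⟩ else 0))]
    refine Finset.prod_congr rfl fun j _ => ?_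
    rw [dif_pos j.2]
  have h2 := h (fun j => if hj : j ∈ S then b ⟨j, hj⟩ else 0) (fun j hj => dif_neg hj)
    (mem_Lam.2 h1)
  funext j
  have h3 := congrFun h2 j.1
  simp only [dif_pos j.2] at h3
  exact h3

theorem exists_big (w : ι → G) : ∃ S : Finset ι, Ind w S ∧ mrk w ≤ S.card := by
  classical
  have hne : ((Finset.univ : Finset (Finset ι)).filter (fun S => Ind w S)).Nonempty := by
    refine ⟨∅, Finset.mem_filter.2 ⟨Finset.mem_univ _, fun a ha _ => ?_⟩⟩
    funext j
    exact ha j (Finset.notMem_empty j)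
  obtain ⟨S, hS, hmax⟩ := Finset.exists_max_image _ Finset.card hne
  have hS' : Ind w S := (Finset.mem_filter.1 hS).2
  refine ⟨S, hS', ?_⟩
  have h1 : ∀ j : {j // j ∉ S}, ∃ a : ι → ℤ, (∀ i, i ∉ insert j.1 S → a i = 0) ∧ a ∈ Lam w ∧
      a j.1 ≠ 0 := by
    intro j
    have hn : ¬ Ind w (insert j.1 S) := by
      intro h
      have h2 := hmax _ (Finset.mem_filter.2 ⟨Finset.mem_univ _, h⟩)
      rw [Finset.card_insert_of_notMem j.2] at h2
      omega
    unfold Ind at hn
    push Not at hn
    obtain ⟨a, ha, haL, ha0⟩ := hn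
    refine ⟨a, ha, haL, fun h => ha0 (hS' a (fun i hi => ?_) haL)⟩
    by_cases hij : i = j.1
    · rw [hij]
      exact h
    · exact ha i (by
        rw [Finset.mem_insert]
        rintro (h3 | h3)
        · exact hij h3
        · exact hi h3)
  choose r hr hrL hr0 using h1
  have hli : LinearIndependent ℤ (fun j : {j // j ∉ S} => (⟨r j, hrL j⟩ : Lam w)) := by
    rw [Fintype.linearIndependent_iff]
    intro c hc i
    have h2 := congrFun (congrArg Subtype.val hc) i.1
    rw [Submodule.coe_sum, Finset.sum_apply] at h2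
    rw [Finset.sum_eq_single i] at h2
    · have h3 : c i * r i i.1 = 0 := h2
      exact (mul_eq_zero.1 h3).resolve_right (hr0 i)
    · intro j _ hji
      have h3 : r j i.1 = 0 := by
        refine hr j i.1 ?_
        rw [Finset.mem_insert]
        rintro (h4 | h4)
        · exact hji (Subtype.ext h4.symm)
        · exact i.2 h4
      show c j * r j i.1 = 0
      rw [h3, mul_zero]
    · intro h
      exact absurd (Finset.mem_univ i) h
  have h2 := hli.fintype_card_le_finrank
  have h3 := mrk_add w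
  have h4 : Fintype.card {j // j ∉ S} = Fintype.card ι - S.card := by
    rw [Fintype.card_subtype_compl, Fintype.card_coe]
  have h5 : S.card ≤ Fintype.card ι := Finset.card_le_univ S
  omega

end

theorem tdu_mono {k L ι : Type} [Field k] [Field L] [Algebra k L] [Fintype ι] (w : ι → Lˣ)
    {S T : Finset ι} (h : S ⊆ T) :
    tdu k (fun j : S => w j) ≤ tdu k (fun j : T => w j) := by
  refine td_le_of_alg fun i => alg_self ⟨⟨i.1, h i.2⟩, rfl⟩

theorem tdu_le {k L ι : Type} [Field k] [Field L] [Algebra k L] [Fintype ι] (w : ι → Lˣ)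
    (S : Finset ι) : tdu k (fun j : S => w j) ≤ tdu k w := by
  refine td_le_of_alg fun i => alg_self ⟨i.1, rfl⟩

theorem t_SUB : Pool.Agent.Y645.UG.S_SUB := by
  classical
  intro k L ι _ _ _ _ w δ h
  obtain ⟨S₀, h1, h2⟩ := exists_big w
  have hne : ((Finset.univ : Finset (Finset ι)).filter (fun S => Ind w S ∧
      tdu k (fun j : S => w j) + (δ + 1) ≤ S.card)).Nonempty := by
    refine ⟨S₀, Finset.mem_filter.2 ⟨Finset.mem_univ _, h1, ?_⟩⟩
    have h3 := tdu_le (k := k) w S₀
    omega
  obtain ⟨S, hS, hmin⟩ := Finset.exists_min_image _ Finset.card hne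
  obtain ⟨-, hI, hc⟩ := Finset.mem_filter.1 hS
  refine ⟨S, hI.lam, ?_⟩
  by_contra hne'
  have hpos : 0 < S.card := by omega
  obtain ⟨j, hj⟩ := Finset.card_pos.1 hpos
  have h4 : (S.erase j).card = S.card - 1 := Finset.card_erase_of_mem hj
  have h5 := tdu_mono (k := k) w (Finset.erase_subset j S)
  have h6 := hmin (S.erase j) (Finset.mem_filter.2 ⟨Finset.mem_univ _,
    hI.mono (Finset.erase_subset j S), by omega⟩)
  omega

end Pool.Agent.Y74.UG
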